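import Mathlib

set_option autoImplicit false

open MeasureTheory ProbabilityTheory Set Filter
open scoped ENNReal NNReal Topology InnerProductSpace

namespace Pool.Agent.H.MP_3ced87_pr

noncomputable section

variable {V : Type*} [NormedAddCommGroup V] [InnerProductSpace ℝ V]

/-- `f` is in the form domain `L*` of the operator, with weak derivative `g`:
`f` vanishes on the negative half line (a normalisation: only `[0,∞)` matters),
`f x = f 0 + ∫_0^x g` for `x ≥ 0`, and `g` and `√(1+x) f` are square integrable on `(0,∞)`. -/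
structure IsFormPair (f g : ℝ → V) : Prop where
  zero_neg : ∀ x < 0, f x = 0
  eq_integral : ∀ x, 0 ≤ x → f x = f 0 + ∫ t in (0:ℝ)..x, g t
  memLp_deriv : MemLp g 2 (volume.restrict (Ioi 0))
  memLp_weight : MemLp (fun x => Real.sqrt (1 + x) • f x) 2 (volume.restrict (Ioi 0))

/-- The bilinear form of `-d²/dx² + √2 W' + κ x` with boundary condition `f'(0) = S f(0)`,
evaluated at a function `φ` of bounded support (with derivative `φ'`) and a function `f`
(with derivative `g`).  The white noise term `√2 ∫ ⟨φ, dW f⟩` is written after integration by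
parts, using `W 0 = 0`. -/
def formVal (W : ℝ → V →L[ℝ] V) (S : V →L[ℝ] V) (κ : ℝ) (φ φ' f g : ℝ → V) : ℝ :=
  (∫ x in Ioi (0:ℝ), (⟪φ' x, g x⟫_ℝ + κ * x * ⟪φ x, f x⟫_ℝ
    - Real.sqrt 2 * (⟪φ' x, W x (f x)⟫_ℝ + ⟪φ x, W x (g x)⟫_ℝ))) + ⟪φ 0, S (f 0)⟫_ℝ

/-- smooth compactly supported test functions (only their restriction to `[0,∞)` matters) -/
structure IsTest (φ : ℝ → V) : Prop where
  smooth : ContDiff ℝ (⊤ : ℕ∞) φ
  supp : HasCompactSupport φ

/-- `f` is an eigenfunction (or zero) for the real number `lam`: weak formulation. -/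
def IsEigen (W : ℝ → V →L[ℝ] V) (S : V →L[ℝ] V) (κ lam : ℝ) (f : ℝ → V) : Prop :=
  ∃ g : ℝ → V, IsFormPair f g ∧ ∀ φ : ℝ → V, IsTest φ →
    formVal W S κ φ (deriv φ) f g = lam * ∫ x in Ioi (0:ℝ), ⟪φ x, f x⟫_ℝ

/-- real multiplicity of `lam` -/
def mult (W : ℝ → V →L[ℝ] V) (S : V →L[ℝ] V) (κ lam : ℝ) : ℕ :=
  Module.finrank ℝ (Submodule.span ℝ {f | IsEigen W S κ lam f})

/-- the eigenvalue counting measure, with real multiplicities -/
def eigenMeasure (W : ℝ → V →L[ℝ] V) (S : V →L[ℝ] V) (κ : ℝ) : Measure ℝ :=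
  Measure.sum fun lam : ℝ => (mult W S κ lam : ℝ≥0∞) • Measure.dirac lam

/-- squared norm of the form domain `L*` -/
def starSq (f g : ℝ → V) : ℝ := ∫ x in Ioi (0:ℝ), (‖g x‖ ^ 2 + (1 + x) * ‖f x‖ ^ 2)

/-- `L²(0,∞)` inner product -/
def l2 (φ ψ : ℝ → V) : ℝ := ∫ x in Ioi (0:ℝ), ⟪φ x, ψ x⟫_ℝ

/-- block quantities of the path -/
def blockD (W : ℝ → V →L[ℝ] V) (k : ℕ) : ℝ :=
  1 + ‖W (k + 1) - W k‖ ^ 2 + (∫ x in (k:ℝ)..(k+1), ‖W x - W k‖ ^ 2) ^ 2

/-- the path constant, a.s. finite with finite mean for Brownian paths -/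
def pathD (W : ℝ → V →L[ℝ] V) : ℝ≥0∞ :=
  ∑' k : ℕ, ENNReal.ofReal (blockD W k ^ 4 / (1 + k) ^ 2)

/-- admissible operator valued paths -/
structure IsPath (W : ℝ → V →L[ℝ] V) : Prop where
  cont : Continuous W
  zero : W 0 = 0
  symm : ∀ x, (W x : V →ₗ[ℝ] V).IsSymmetric

/-- Galerkin families of test functions, orthonormal in `L²(0,∞)` and asymptotically dense in
the form domain. -/
structure GalerkinFam (V : Type*) [NormedAddCommGroup V] [InnerProductSpace ℝ V] where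
  d : ℕ → ℕ
  e : ∀ n, Fin (d n) → ℝ → V
  test : ∀ n i, IsTest (e n i)
  orth : ∀ n i j, l2 (e n i) (e n j) = if i = j then 1 else 0
  dense : ∀ f g : ℝ → V, IsFormPair f g → ∀ ε > 0, ∃ N, ∀ n ≥ N, ∃ t : Fin (d n) → ℝ,
    starSq (fun x => f x - ∑ i, t i • e n i x) (fun x => g x - ∑ i, t i • deriv (e n i) x) < ε

/-- Galerkin matrix of the form -/
def galMat (W : ℝ → V →L[ℝ] V) (S : V →L[ℝ] V) (κ : ℝ) {d : ℕ} (e : Fin d → ℝ → V) :
    Matrix (Fin d) (Fin d) ℝ :=
  fun i j => formVal W S κ (e i) (deriv (e i)) (e j) (deriv (e j))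

section Spec
variable {K H : Type*} [NormedAddCommGroup K] [InnerProductSpace ℝ K]
  [NormedAddCommGroup H] [InnerProductSpace ℝ H]

/-- abstract eigenspaces of a form `a` on `K` relative to the embedding `ι : K → H` -/
def eigSub (ι : K →L[ℝ] H) (a : K →L[ℝ] K →L[ℝ] ℝ) (lam : ℝ) : Submodule ℝ K where
  carrier := {x | ∀ y, a x y = lam * ⟪ι x, ι y⟫_ℝ}
  add_mem' := by
    intro x x' hx hx' y
    simp only [Set.mem_ofPred_eq] at hx hx' ⊢
    simp [hx y, hx' y, inner_add_left, mul_add]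
  zero_mem' := by intro y; simp
  smul_mem' := by
    intro c x hx y
    simp only [Set.mem_ofPred_eq] at hx ⊢
    simp [hx y, inner_smul_left]; ring

end Spec

end

end Pool.Agent.H.MP_3ced87_pr
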