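import Pool.Agent.H.MP_3ced87_pr.Defs

set_option autoImplicit false

open MeasureTheory ProbabilityTheory Set Filter
open scoped ENNReal NNReal Topology InnerProductSpace

namespace Pool.Agent.H.MP_3ced87_pr

noncomputable section

/-- Cauchy-Schwarz on an interval. -/
lemma sq_intervalIntegral_le (h : ℝ → ℝ) (hc : Continuous h) {T : ℝ} (hT : 0 < T) :
    (∫ t in (0:ℝ)..T, h t) ^ 2 ≤ T * ∫ t in (0:ℝ)..T, h t ^ 2 := by
  set I := ∫ t in (0:ℝ)..T, h t with hI
  have h0 : 0 ≤ ∫ t in (0:ℝ)..T, (h t - I / T) ^ 2 :=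
    intervalIntegral.integral_nonneg hT.le fun t _ => sq_nonneg _
  have h1 : ∫ t in (0:ℝ)..T, (h t - I / T) ^ 2 =
      (∫ t in (0:ℝ)..T, h t ^ 2) - 2 * (I / T) * I + (I / T) ^ 2 * T := by
    have e : ∀ t, (h t - I / T) ^ 2 = (h t ^ 2 - 2 * (I / T) * h t) + (I / T) ^ 2 := by
      intro t; ring
    simp_rw [e]
    rw [intervalIntegral.integral_add, intervalIntegral.integral_sub,
      intervalIntegral.integral_const_mul, intervalIntegral.integral_const]
    · simp only [sub_zero, smul_eq_mul, ← hI]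
      ring
    · exact (hc.pow 2).intervalIntegrable _ _
    · exact (hc.const_mul _).intervalIntegrable _ _
    · exact ((hc.pow 2).sub (hc.const_mul _)).intervalIntegrable _ _
    · exact continuous_const.intervalIntegrable _ _
  rw [h1] at h0
  have h2 : (∫ t in (0:ℝ)..T, h t ^ 2) - 2 * (I / T) * I + (I / T) ^ 2 * T =
      (∫ t in (0:ℝ)..T, h t ^ 2) - I ^ 2 / T := by
    field_simp
    ring
  rw [h2] at h0
  have h3 : I ^ 2 / T ≤ ∫ t in (0:ℝ)..T, h t ^ 2 := by linarith
  rw [div_le_iff₀ hT] at h3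
  linarith

theorem gaussian_poincare {E : Type*} [NormedAddCommGroup E] [NormedSpace ℝ E]
    [FiniteDimensional ℝ E] [MeasurableSpace E] [BorelSpace E]
    (μ : Measure E) [IsGaussian μ] (hμ : μ[id] = 0)
    {F : E → ℝ} {F' : E → E →L[ℝ] ℝ} (hF : ∀ x, HasFDerivAt F (F' x) x) (hF'c : Continuous F')
    (hb : ∃ C, ∀ x, ‖F' x‖ ≤ C) :
    ∫⁻ x, ∫⁻ y, ENNReal.ofReal ((F x - F y) ^ 2) ∂μ ∂μ ≤
      ENNReal.ofReal (Real.pi ^ 2 / 4) * ∫⁻ x, ∫⁻ y, ENNReal.ofReal ((F' x y) ^ 2) ∂μ ∂μ := by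
  have : SecondCountableTopology E := by
    have := FiniteDimensional.proper ℝ E
    infer_instance
  have : CompleteSpace E := FiniteDimensional.complete ℝ E
  have hFc : Continuous F := continuous_iff_continuousAt.2 fun x => (hF x).continuousAt
  obtain ⟨X, hX⟩ : ∃ X : ℝ → E × E → E, ∀ t z, X t z = Real.cos t • z.1 + Real.sin t • z.2 :=
    ⟨_, fun _ _ => rfl⟩
  obtain ⟨Y, hY⟩ : ∃ Y : ℝ → E × E → E, ∀ t z, Y t z = -Real.sin t • z.1 + Real.cos t • z.2 :=
    ⟨_, fun _ _ => rfl⟩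
  have hXc : Continuous fun p : ℝ × (E × E) => X p.1 p.2 := by
    simp only [hX]
    fun_prop
  have hYc : Continuous fun p : ℝ × (E × E) => Y p.1 p.2 := by
    simp only [hY]
    fun_prop
  obtain ⟨h, hh⟩ : ∃ h : ℝ → E × E → ℝ, ∀ t z, h t z = F' (X t z) (Y t z) :=
    ⟨_, fun _ _ => rfl⟩
  have hhc : Continuous fun p : ℝ × (E × E) => h p.1 p.2 := by
    simp only [hh]
    exact (hF'c.comp hXc).clm_apply hYc
  have hT : 0 < Real.pi / 2 := by positivity
  -- pointwise bound
  have hpt : ∀ z : E × E, ENNReal.ofReal ((F z.1 - F z.2) ^ 2) ≤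
      ENNReal.ofReal (Real.pi / 2) *
        ∫⁻ t in Ioc 0 (Real.pi / 2), ENNReal.ofReal (h t z ^ 2) := by
    intro z
    have hz : Continuous fun t => h t z := hhc.comp (by fun_prop : Continuous fun t : ℝ => (t, z))
    have hder : ∀ t : ℝ, HasDerivAt (fun t => F (X t z)) (h t z) t := by
      intro t
      have h1 : HasDerivAt (fun t => X t z) (Y t z) t := by
        have e : (fun t => X t z) = fun t => Real.cos t • z.1 + Real.sin t • z.2 := by
          funext t; exact hX t z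
        rw [e, hY]
        exact ((Real.hasDerivAt_cos t).smul_const z.1).add ((Real.hasDerivAt_sin t).smul_const z.2)
      rw [hh]
      exact (hF (X t z)).comp_hasDerivAt t h1
    have hftc : ∫ t in (0:ℝ)..(Real.pi / 2), h t z = F z.2 - F z.1 := by
      rw [intervalIntegral.integral_eq_sub_of_hasDerivAt (fun t _ => hder t)
        (hz.intervalIntegrable _ _)]
      simp [hX]
    have h2 := sq_intervalIntegral_le (fun t => h t z) hz hT
    rw [hftc] at h2
    have h3 : (F z.1 - F z.2) ^ 2 ≤ Real.pi / 2 * ∫ t in (0:ℝ)..(Real.pi / 2), h t z ^ 2 := by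
      calc (F z.1 - F z.2) ^ 2 = (F z.2 - F z.1) ^ 2 := by ring
        _ ≤ _ := h2
    refine (ENNReal.ofReal_le_ofReal h3).trans ?_
    rw [ENNReal.ofReal_mul hT.le, intervalIntegral.integral_of_le hT.le,
      ofReal_integral_eq_lintegral_ofReal]
    · have := ((hz.pow 2).intervalIntegrable (μ := volume) 0 (Real.pi / 2))
      rw [intervalIntegrable_iff_integrableOn_Ioc_of_le hT.le] at this
      exact this
    · exact Eventually.of_forall fun t => sq_nonneg _
  have hmeas : Measurable fun p : ℝ × (E × E) => ENNReal.ofReal (h p.1 p.2 ^ 2) :=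
    (ENNReal.measurable_ofReal.comp (hhc.pow 2).measurable)
  have hrot : ∀ t : ℝ, ∫⁻ z, ENNReal.ofReal (h t z ^ 2) ∂(μ.prod μ) =
      ∫⁻ z, ENNReal.ofReal ((F' z.1 z.2) ^ 2) ∂(μ.prod μ) := by
    intro t
    have hm : Measurable fun z : E × E => ENNReal.ofReal ((F' z.1 z.2) ^ 2) := by
      have : Continuous fun z : E × E => (F' z.1 z.2) ^ 2 :=
        ((hF'c.comp continuous_fst).clm_apply continuous_snd).pow 2
      exact ENNReal.measurable_ofReal.comp this.measurable
    conv_rhs => rw [← IsGaussian.map_rotation_eq_self hμ t]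
    rw [lintegral_map hm (ContinuousLinearMap.rotation t).continuous.measurable]
    refine lintegral_congr fun z => ?_
    rw [hh, hX, hY, ContinuousLinearMap.rotation_apply]
  have hm1 : Measurable fun z : E × E => ENNReal.ofReal ((F z.1 - F z.2) ^ 2) := by
    have : Continuous fun z : E × E => (F z.1 - F z.2) ^ 2 := by fun_prop
    exact ENNReal.measurable_ofReal.comp this.measurable
  have hm2 : Measurable fun z : E × E => ENNReal.ofReal ((F' z.1 z.2) ^ 2) := by
    have : Continuous fun z : E × E => (F' z.1 z.2) ^ 2 :=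
      ((hF'c.comp continuous_fst).clm_apply continuous_snd).pow 2
    exact ENNReal.measurable_ofReal.comp this.measurable
  calc ∫⁻ x, ∫⁻ y, ENNReal.ofReal ((F x - F y) ^ 2) ∂μ ∂μ
      = ∫⁻ z, ENNReal.ofReal ((F z.1 - F z.2) ^ 2) ∂(μ.prod μ) :=
        (lintegral_prod _ hm1.aemeasurable).symm
    _ ≤ ∫⁻ z, (ENNReal.ofReal (Real.pi / 2) *
        ∫⁻ t in Ioc 0 (Real.pi / 2), ENNReal.ofReal (h t z ^ 2)) ∂(μ.prod μ) :=
        lintegral_mono hpt
    _ = ENNReal.ofReal (Real.pi / 2) * ∫⁻ z,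
        (∫⁻ t in Ioc 0 (Real.pi / 2), ENNReal.ofReal (h t z ^ 2)) ∂(μ.prod μ) := by
        rw [lintegral_const_mul' _ _ ENNReal.ofReal_ne_top]
    _ = ENNReal.ofReal (Real.pi / 2) * ∫⁻ t in Ioc 0 (Real.pi / 2),
        (∫⁻ z, ENNReal.ofReal (h t z ^ 2) ∂(μ.prod μ)) := by
        rw [lintegral_lintegral_swap]
        exact (hmeas.comp measurable_swap).aemeasurable
    _ = ENNReal.ofReal (Real.pi / 2) * ∫⁻ t in Ioc 0 (Real.pi / 2),
        (∫⁻ z, ENNReal.ofReal ((F' z.1 z.2) ^ 2) ∂(μ.prod μ)) := by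
        simp_rw [hrot]
    _ = ENNReal.ofReal (Real.pi ^ 2 / 4) *
        ∫⁻ z, ENNReal.ofReal ((F' z.1 z.2) ^ 2) ∂(μ.prod μ) := by
        rw [lintegral_const, Measure.restrict_apply MeasurableSet.univ, univ_inter,
          Real.volume_Ioc, sub_zero, mul_comm (lintegral _ _), ← mul_assoc,
          ← ENNReal.ofReal_mul hT.le]
        congr 2
        ring
    _ = ENNReal.ofReal (Real.pi ^ 2 / 4) *
        ∫⁻ x, ∫⁻ y, ENNReal.ofReal ((F' x y) ^ 2) ∂μ ∂μ := by
        rw [lintegral_prod _ hm2.aemeasurable]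

end

end Pool.Agent.H.MP_3ced87_pr
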